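import Pool.Agent.H230R3.NearD
import Pool.Agent.H230R3.MonoEx

set_option autoImplicit false
set_option linter.unusedSectionVars false
set_option linter.unusedVariables false
open Set Metric Filter Topology

namespace Pool.Agent.Results.MP_74c05d_an.Classification

open Pool.Agent.H230R3

/-- a nearly convex, non-convex set which is not `σ`-compact -/
theorem example_set {n : ℕ} (hn : 2 ≤ n) :
    ∃ C : Set (EuclideanSpace ℝ (Fin n)), C.Nonempty ∧ IsNearlyConvex C ∧ ¬ Convex ℝ C ∧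
      ¬ IsSigmaCompact C := by
  let i0 : Fin n := ⟨0, by omega⟩
  let i1 : Fin n := ⟨1, by omega⟩
  have hne : i0 ≠ i1 := by simp [i0, i1]
  let D : Set (EuclideanSpace ℝ (Fin n)) := {x | ∀ i, |x i| < 1}
  let P : ℝ → EuclideanSpace ℝ (Fin n) := fun t =>
    t • EuclideanSpace.single i0 (1 : ℝ) + EuclideanSpace.single i1 (1 : ℝ)
  have hP0 : ∀ t, P t i0 = t := fun t => by simp [P, hne]
  have hP1 : ∀ t, P t i1 = 1 := fun t => by simp [P, hne.symm]
  have hPi : ∀ t i, i ≠ i0 → i ≠ i1 → P t i = 0 := fun t i h0 h1 => by simp [P, h0, h1]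
  have hPc : Continuous P := by fun_prop
  let C : Set (EuclideanSpace ℝ (Fin n)) := D ∪ P '' {t : ℝ | |t| ≤ 1 ∧ Irrational t}
  have hD : Convex ℝ D := by
    intro x hx y hy a b ha hb hab i
    have h1 : (a • x + b • y) i = a * x i + b * y i := by simp
    rw [h1]
    have h2 := abs_lt.1 (hx i)
    have h3 := abs_lt.1 (hy i)
    rcases eq_or_lt_of_le ha with h | h
    · rw [← h] at hab ⊢
      have : b = 1 := by linarith
      rw [this, abs_lt]; constructor <;> linarith
    · rw [abs_lt]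
      constructor
      · nlinarith [mul_lt_mul_of_pos_left h2.1 h, mul_le_mul_of_nonneg_left h3.1.le hb]
      · nlinarith [mul_lt_mul_of_pos_left h2.2 h, mul_le_mul_of_nonneg_left h3.2.le hb]
  have hcl : ∀ x : EuclideanSpace ℝ (Fin n), (∀ i, |x i| ≤ 1) → x ∈ closure D := by
    intro x hx
    have ht : Tendsto (fun s : ℝ => s • x) (𝓝[<] 1) (𝓝 x) := by
      have : Tendsto (fun s : ℝ => s • x) (𝓝 1) (𝓝 ((1 : ℝ) • x)) :=
        (continuous_id.smul continuous_const).tendsto 1
      rw [one_smul] at this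
      exact this.mono_left nhdsWithin_le_nhds
    refine mem_closure_of_tendsto ht ?_
    have h1 : ∀ᶠ s : ℝ in 𝓝[<] 1, 0 < s :=
      (lt_mem_nhds (by norm_num : (0 : ℝ) < 1)).filter_mono nhdsWithin_le_nhds
    filter_upwards [self_mem_nhdsWithin, h1] with s hs hs0
    intro i
    have h2 : (s • x) i = s * x i := by simp
    rw [h2, abs_mul, abs_of_pos hs0]
    have h3 : s < 1 := hs
    nlinarith [hx i, abs_nonneg (x i)]
  have hmemC : ∀ t : ℝ, P t ∈ C ↔ (|t| ≤ 1 ∧ Irrational t) := by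
    intro t
    constructor
    · rintro (h | ⟨s, hs, hst⟩)
      · have := h i1
        rw [hP1] at this
        norm_num at this
      · have : s = t := by rw [← hP0 s, hst, hP0]
        rwa [← this]
    · exact fun h => Or.inr ⟨t, h, rfl⟩
  refine ⟨C, ⟨0, Or.inl fun i => by simp⟩, ⟨D, hD, subset_union_left, ?_⟩, ?_, ?_⟩
  · refine union_subset subset_closure ?_
    rintro _ ⟨t, ⟨ht, -⟩, rfl⟩
    refine hcl _ fun i => ?_
    by_cases h0 : i = i0
    · rw [h0, hP0]; exact ht
    · by_cases h1 : i = i1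
      · rw [h1, hP1]; norm_num
      · rw [hPi t i h0 h1]; norm_num
  · intro hconv
    obtain ⟨r, hr, hr1⟩ : ∃ r : ℝ, Irrational r ∧ |r| ≤ 1 := by
      refine ⟨Real.sqrt 2 / 2, ?_, ?_⟩
      · exact irrational_sqrt_two.div_natCast (by norm_num : (2 : ℕ) ≠ 0)
      · rw [abs_of_nonneg (by positivity)]
        have : Real.sqrt 2 ≤ 2 := by
          rw [Real.sqrt_le_left (by norm_num)]; norm_num
        linarith
    have h1 : P r ∈ C := (hmemC r).2 ⟨hr1, hr⟩
    have h2 : P (-r) ∈ C := (hmemC (-r)).2 ⟨by rwa [abs_neg], hr.neg⟩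
    have h3 := hconv h1 h2 (by norm_num : (0 : ℝ) ≤ 1 / 2) (by norm_num : (0 : ℝ) ≤ 1 / 2) (by norm_num)
    have h4 : (1 / 2 : ℝ) • P r + (1 / 2 : ℝ) • P (-r) = P 0 := by
      simp only [P]; module
    rw [h4, hmemC] at h3
    exact h3.2 ⟨0, by simp⟩
  · rintro ⟨K, hK, hKU⟩
    refine irr_not_sigmaCompact (fun m => (fun x : EuclideanSpace ℝ (Fin n) => x i0) ''
      (K m ∩ P '' Icc (-1) 1)) (fun m => ?_) ?_
    · refine ((hK m).inter_right ?_).image (by fun_prop)
      exact (isCompact_Icc.image hPc).isClosed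
    · ext t
      simp only [mem_iUnion, mem_image, mem_inter_iff]
      constructor
      · rintro ⟨m, x, ⟨hx, s, hs, rfl⟩, hxt⟩
        rw [hP0] at hxt
        subst hxt
        exact (hmemC s).1 (by rw [← hKU]; exact mem_iUnion.2 ⟨m, hx⟩)
      · intro ht
        have hx : P t ∈ C := (hmemC t).2 ht
        rw [← hKU] at hx
        obtain ⟨m, hm⟩ := mem_iUnion.1 hx
        exact ⟨m, P t, ⟨hm, t, abs_le.1 ht.1, rfl⟩, hP0 t⟩

/-- Classification of the nearly convex sets in `ℝⁿ` that are domains or ranges of subdifferentials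
or of maximally monotone operators: exactly the `σ`-compact (that is, `F_σ`) ones. For `n ≥ 2` some
nearly convex set is neither the domain nor the range of any such map. -/
theorem result (n : ℕ) :
    (∀ C : Set (EuclideanSpace ℝ (Fin n)), C.Nonempty → IsNearlyConvex C →
      ((∃ f : EuclideanSpace ℝ (Fin n) → EReal, IsProperLscConvex f ∧ domOp (subdiff f) = C) ↔
        IsSigmaCompact C) ∧
      ((∃ f : EuclideanSpace ℝ (Fin n) → EReal, IsProperLscConvex f ∧ ranOp (subdiff f) = C) ↔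
        IsSigmaCompact C) ∧
      ((∃ A : EuclideanSpace ℝ (Fin n) → Set (EuclideanSpace ℝ (Fin n)),
        IsMaximallyMonotone A ∧ domOp A = C) ↔ IsSigmaCompact C) ∧
      ((∃ A : EuclideanSpace ℝ (Fin n) → Set (EuclideanSpace ℝ (Fin n)),
        IsMaximallyMonotone A ∧ ranOp A = C) ↔ IsSigmaCompact C)) ∧
    (2 ≤ n → ∃ C : Set (EuclideanSpace ℝ (Fin n)), C.Nonempty ∧ IsNearlyConvex C ∧
      ¬ Convex ℝ C ∧
      (∀ f : EuclideanSpace ℝ (Fin n) → EReal, IsProperLscConvex f →
        domOp (subdiff f) ≠ C ∧ ranOp (subdiff f) ≠ C) ∧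
      (∀ A : EuclideanSpace ℝ (Fin n) → Set (EuclideanSpace ℝ (Fin n)),
        IsMaximallyMonotone A → domOp A ≠ C ∧ ranOp A ≠ C)) := by
  refine ⟨fun C hne hC => ⟨⟨?_, ?_⟩, ⟨?_, ?_⟩, ⟨?_, ?_⟩, ⟨?_, ?_⟩⟩, fun hn => ?_⟩
  rotate_right
  · obtain ⟨C, h1, h2, h3, h4⟩ := example_set hn
    exact ⟨C, h1, h2, h3, fun f hf =>
      ⟨fun h => h4 (h ▸ isSigmaCompact_dom_of_closed_graph (isClosed_graph_subdiff hf)),
       fun h => h4 (h ▸ isSigmaCompact_ran_of_closed_graph (isClosed_graph_subdiff hf))⟩,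
      fun A hA => ⟨fun h => h4 (h ▸ isSigmaCompact_dom_of_closed_graph hA.isClosed_graph),
       fun h => h4 (h ▸ isSigmaCompact_ran_of_closed_graph hA.isClosed_graph)⟩⟩
  · rintro ⟨f, hf, rfl⟩
    exact isSigmaCompact_dom_of_closed_graph (isClosed_graph_subdiff hf)
  · exact fun hs => exists_of_nearlyConvex hne hC hs
  · rintro ⟨f, hf, rfl⟩
    exact isSigmaCompact_ran_of_closed_graph (isClosed_graph_subdiff hf)
  · intro hs
    obtain ⟨g, hg, hgd⟩ := exists_of_nearlyConvex hne hC hs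
    have hne' : (domOp (subdiff g)).Nonempty := by rw [hgd]; exact hne
    exact ⟨conjF g, conj_proper hg hne', by rw [ran_conj hg hne', hgd]⟩
  · rintro ⟨A, hA, rfl⟩
    exact isSigmaCompact_dom_of_closed_graph hA.isClosed_graph
  · intro hs
    obtain ⟨g, hg, hgd⟩ := exists_of_nearlyConvex hne hC hs
    have hne' : (domOp (subdiff g)).Nonempty := by rw [hgd]; exact hne
    exact ⟨subdiff g, subdiff_maximal hg hne', hgd⟩
  · rintro ⟨A, hA, rfl⟩
    exact isSigmaCompact_ran_of_closed_graph hA.isClosed_graph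
  · intro hs
    obtain ⟨g, hg, hgd⟩ := exists_of_nearlyConvex hne hC hs
    have hne' : (domOp (subdiff g)).Nonempty := by rw [hgd]; exact hne
    exact ⟨invOp (subdiff g), (subdiff_maximal hg hne').inv, hgd⟩

end Pool.Agent.Results.MP_74c05d_an.Classification
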